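import Pool.Agent.Q300.FT.Three

/-! # MP_2429c0_al: quaternion algebras whose slots have independent norm groups

Let `F` be a field of characteristic `≠ 2` with finitely many square classes, and let `N(a)` be the
group of the nonzero values of `x² - a y²`.  If `-1` is a square, then the quaternionic structure of
`F` is a group extension if and only if there is a division quaternion algebra any two of whose
slots `u ≠ v` (modulo squares) satisfy `N(u) ∩ N(v) = F*²`.  Fields with `-1` a square in which
splitting is transitive, or whose norm groups contain at most four square classes, are of elementary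
type. -/

set_option autoImplicit false

namespace Pool.Agent.Results.MP_2429c0_al.IndependentNormGroups

open Pool.Agent.TH188.ET Pool.Agent.H315R3.ETC Pool.Agent.TH673.VG Pool.Agent.Q300.FT

theorem result {F : Type*} [Field F] (h2 : (2 : F) ≠ 0) (hfin : FinSq F) :
    -- recognition of group extensions by one quaternion algebra
    ((∃ i : Fˣ, i ^ 2 = -1) → 4 ≤ (squares F).index →
      ((∃ a b : Fˣ, ¬ NormFrom a b ∧ IndependentSlots a b) ↔
        ∃ T : QData, IsQuat T ∧ T.neg = 1 ∧ 2 * Nat.card T.G = (squares F).index ∧
          IsStructureOf F (ext T))) ∧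
    -- transitive splitting
    ((∃ i : Fˣ, i ^ 2 = -1) →
      (∀ a b c : Fˣ, b ∉ squares F → NormFrom a b → NormFrom b c → NormFrom a c) →
      ElementaryType F) ∧
    -- norm groups with at most four square classes
    ((∃ i : Fˣ, i ^ 2 = -1) →
      (∀ a : Fˣ, a ∉ squares F → (squares F).relIndex (normGroup a) ≤ 4) → ElementaryType F) ∧
    -- arbitrary `-1`: all slots but one are rigid
    (∀ a b : Fˣ, (∀ c : Fˣ, ¬ QIso c c a b) → IndependentSlots a b →
      ∃ w : Fˣ, ∀ v : Fˣ, v * w ∉ squares F → Slot a b v →
        ∀ e ∈ normGroup v, e ∈ squares F ∨ -v * e ∈ squares F) :=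
  slots h2 hfin

end Pool.Agent.Results.MP_2429c0_al.IndependentNormGroups
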