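import Pool.Agent.Q300.FT.One

/-! # MP_2429c0_al: a norm group criterion for elementary type

Let `F` be a field of characteristic `≠ 2` with finitely many square classes, and let `N(a)` be the
group of the nonzero values of `x² - a y²`.  The quaternionic structure of `F` is of elementary type
if and only if for every proper subgroup `H ≥ F*²` of `F*` there is `a` outside `H` with
`N(ah) ⊆ N(a) H` for all `h ∈ H`; it is enough to check a weaker condition for the `H` of index at
least eight which contain at least four square classes and all `a` with `N(a)` of index at most two.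
Equivalently `F*` (or a subgroup of index at most four) is obtained from `F*²` by successively
adjoining good elements. -/

set_option autoImplicit false

namespace Pool.Agent.Results.MP_2429c0_al.NormGroupCriterion

open Pool.Agent.TH188.ET Pool.Agent.TH673.VG Pool.Agent.Q300.FT

theorem result {F : Type*} [Field F] (h2 : (2 : F) ≠ 0) (hfin : FinSq F) :
    (ElementaryType F ↔ ∀ H : Subgroup Fˣ, squares F ≤ H → H ≠ ⊤ → NormStep H) ∧
    (ElementaryType F ↔ ∀ H : Subgroup Fˣ, squares F ≤ H → H ≠ ⊤ → AlgebraStep H) ∧
    (ElementaryType F ↔ ∀ H : Subgroup Fˣ, (∀ a : Fˣ, (normGroup a).index ≤ 2 → a ∈ H) →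
      4 ≤ (squares F).relIndex H → 8 ≤ H.index → NormStepTwo H) ∧
    (ElementaryType F ↔ NormChain (⊤ : Subgroup Fˣ)) ∧
    (ElementaryType F ↔ ∃ L : Subgroup Fˣ, NormChain L ∧ L.index ≤ 4) :=
  crit h2 hfin

end Pool.Agent.Results.MP_2429c0_al.NormGroupCriterion
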