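import Pool.Agent.Q300.FT.Two

/-! # MP_2429c0_al: fields in which products of norm groups are norm groups

Let `F` be a field of characteristic `≠ 2` with finitely many square classes, and let `N(a)` be the
group of the nonzero values of `x² - a y²`.  If every product `N(a) N(b)` is a norm group `N(c)`,
then the quaternionic structure of `F` is of elementary type: it is a direct product of structures
with at most two quaternions.  Several other conditions on the norm groups which are necessary and
sufficient for the structure of `F` to be such a product. -/

set_option autoImplicit false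

namespace Pool.Agent.Results.MP_2429c0_al.NormGroupProducts

open Pool.Agent.TH188.ET Pool.Agent.TH673.VG Pool.Agent.Q300.FT

theorem result {F : Type*} [Field F] (h2 : (2 : F) ≠ 0) (hfin : FinSq F) :
    (ProductOfTwos F → ElementaryType F) ∧
    (ProductOfTwos F ↔ NormProductsClosed F) ∧
    (ProductOfTwos F ↔ NormTripleProducts F ∧ NormIndexTwoAbove F) ∧
    (ProductOfTwos F ↔ NormTripleProducts F ∧ NormMaximalDichotomy F) ∧
    (ProductOfTwos F ↔ NormTripleProducts F ∧ ElementaryType F) ∧
    (ProductOfTwos F ↔ SplitterBelow F) ∧
    (ProductOfTwos F ↔ SplitterIndexTwo F) ∧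
    (ProductOfTwos F ↔ Subgroup.closure {a : Fˣ | (normGroup a).index ≤ 2} = ⊤) :=
  products h2 hfin

end Pool.Agent.Results.MP_2429c0_al.NormGroupProducts
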