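import Pool.Agent.Q312.ET.Fld

/-!
Elementary type descends along places whose residue field is an odd extension.

`F` is a field of characteristic not two, `K` and `L` are field extensions of `F`, and `A` is a
valuation ring of `K` with a homomorphism `π : A → L` of `F`-algebras whose kernel is the maximal
ideal of `A` (an `F`-place of `K` with values in `L`). If `L` is an algebraic extension of `F` all of
whose finite subextensions have odd degree (`OddExt F L`), `K` has finitely many square classes
and the quaternionic structure of `K` is of elementary type, then `F` has finitely many square
classes and the quaternionic structure of `F` is of elementary type.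

Special cases: `A = K = L`, which gives the descent along extensions of odd degree and along the
fixed field of a 2-Sylow subgroup of a Galois group (stated separately), and `L = F`.

The norm from `L` to `F`, composed with the place, induces a retraction of the square classes of
`K` onto those of `F`, which satisfies the projection formula for the forms `x² - t y²` with `t` in
`F`; elementary type passes to such retracts of quaternionic structures.
-/

set_option autoImplicit false

namespace Pool.Agent.Results.MP_2429c0_al.OddDegreeDescent

open Pool.Agent.TH188.ET Pool.Agent.Q300.FT Pool.Agent.Q312.ET

theorem result {F K L : Type*} [Field F] [Field K] [Field L] [Algebra F K] [Algebra F L]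
    (h2 : (2 : F) ≠ 0) :
    (OddExt F L → FinSq K → ∀ (A : ValuationSubring K) (π : A →+* L), IsLocalHom π →
      (∀ t : F, ∃ ht : algebraMap F K t ∈ A, π ⟨algebraMap F K t, ht⟩ = algebraMap F L t) →
      ElementaryType K → FinSq F ∧ ElementaryType F) ∧
    (OddExt F K → FinSq K → ElementaryType K → FinSq F ∧ ElementaryType F) :=
  ⟨fun h hK A π hl hA hE => by
    have := hl
    exact place_descent h2 h hK A π hA hE, fun h hK hE => odd_descent h2 h hK hE⟩

end Pool.Agent.Results.MP_2429c0_al.OddDegreeDescent
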